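import Pool.Agent.H70.GrigJac

set_option autoImplicit false

namespace Pool.Agent.Results.MP_2e8808_al.NotRadical

open Pool.Agent.H70.GrigDefs

theorem result :
    sInf {I : Ideal (MonoidAlgebra (ZMod 2) Grig) | I.IsMaximal} ≠
      RingHom.ker (MonoidAlgebra.lift (ZMod 2) (ZMod 2) Grig 1) := by
  rw [← Ring.jacobson_eq_sInf_isMaximal]
  exact Pool.Agent.H70.GrigJac.main

end Pool.Agent.Results.MP_2e8808_al.NotRadical
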